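import Pool.Agent.Helper30.BG.Goals

/-!
# Project BG (MP_66e6f4_an), packet B0A: one variable analysis for `β = 0`
-/

namespace Pool.Agent.Helper16.BG

open InnerProductSpace Metric Set Filter Topology MeasureTheory
open scoped ContDiff
open Pool.Agent.Helper30.BG

section

variable {f : ℝ → ℝ} {a0 a1 : ℝ}

theorem Fp_hasDerivAt (h : Nonl f a0 a1) (v : ℝ) : HasDerivAt (Fp f a0) (f v) v :=
  intervalIntegral.integral_hasDerivAt_right (h.cd.continuous.intervalIntegrable _ _)
    (h.cd.continuous.stronglyMeasurableAtFilter _ _) h.cd.continuous.continuousAt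

theorem Fp_mono (h : Nonl f a0 a1) : Monotone (Fp f a0) :=
  monotone_of_deriv_nonneg (fun v => (Fp_hasDerivAt h v).differentiableAt)
    (fun v => by rw [(Fp_hasDerivAt h v).deriv]; exact h.nn v)

theorem Fp_a0 : Fp f a0 a0 = 0 := intervalIntegral.integral_same

theorem Fp_lo (h : Nonl f a0 a1) {v : ℝ} (hv : v ≤ a0) : Fp f a0 v = 0 := by
  have h1 : Fp f a0 v = ∫ t in a0..v, (0 : ℝ) := by
    apply intervalIntegral.integral_congr
    intro t ht
    rw [uIcc_of_ge hv] at ht
    exact h.lo t ht.2
  rw [h1, intervalIntegral.integral_zero]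

theorem Fp_nonneg (h : Nonl f a0 a1) (v : ℝ) : 0 ≤ Fp f a0 v := by
  rcases le_total v a0 with hv | hv
  · rw [Fp_lo h hv]
  · rw [← Fp_a0 (f := f) (a0 := a0)]
    exact Fp_mono h hv

theorem Fp_zero (h : Nonl f a0 a1) (h0 : ∀ v, v ≤ 0 → f v = 0) : Fp f a0 0 = 0 := by
  rcases le_total 0 a0 with hv | hv
  · exact Fp_lo h hv
  · have h1 : Fp f a0 0 = ∫ t in a0..0, (0 : ℝ) := by
      apply intervalIntegral.integral_congr
      intro t ht
      rw [uIcc_of_le hv] at ht
      exact h0 t ht.2
    rw [h1, intervalIntegral.integral_zero]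

theorem Fp_hi (h : Nonl f a0 a1) {v : ℝ} (hv : a1 ≤ v) : Fp f a0 v = Fp f a0 a1 := by
  have hi : ∀ a b, IntervalIntegrable f volume a b := fun a b =>
    h.cd.continuous.intervalIntegrable _ _
  have h1 : Fp f a0 v = Fp f a0 a1 + ∫ t in a1..v, f t :=
    (intervalIntegral.integral_add_adjacent_intervals (hi _ _) (hi _ _)).symm
  have h2 : ∫ t in a1..v, f t = ∫ t in a1..v, (0 : ℝ) := by
    apply intervalIntegral.integral_congr
    intro t ht
    rw [uIcc_of_le hv] at ht
    exact h.hi t ht.1
  rw [h1, h2, intervalIntegral.integral_zero, add_zero]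

theorem Fp_le (h : Nonl f a0 a1) (v : ℝ) : Fp f a0 v ≤ Fp f a0 a1 := by
  rcases le_total v a1 with hv | hv
  · exact Fp_mono h hv
  · rw [Fp_hi h hv]

theorem Fp_contDiff (h : Nonl f a0 a1) : ContDiff ℝ 2 (Fp f a0) := by
  have h2 : (2 : WithTop ℕ∞) = 1 + 1 := by norm_num
  rw [h2, contDiff_succ_iff_deriv]
  refine ⟨fun v => (Fp_hasDerivAt h v).differentiableAt, by simp, ?_⟩
  have h3 : deriv (Fp f a0) = f := funext fun v => (Fp_hasDerivAt h v).deriv
  rw [h3]
  exact h.cd

/-- `f ≤ Λ √(2F)`. -/
theorem f_le (h : Nonl f a0 a1) : ∃ Λ : ℝ, 0 < Λ ∧ ∀ v, f v ≤ Λ * √(2 * Fp f a0 v) := by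
  have hdf : Continuous (deriv f) := h.cd.continuous_deriv (le_refl _)
  obtain ⟨B, hB⟩ := isCompact_Icc.exists_bound_of_continuousOn (s := Icc a0 a1) hdf.continuousOn
  have hB0 : 0 ≤ B := (norm_nonneg _).trans (hB a0 ⟨le_rfl, h.lt.le⟩)
  refine ⟨√(B + 1), Real.sqrt_pos.mpr (by linarith), fun v => ?_⟩
  have hsq : √(B + 1) ^ 2 = B + 1 := Real.sq_sqrt (by linarith)
  rcases le_total v a0 with hv | hv
  · rw [h.lo v hv]
    positivity
  have hH : Monotone (fun t => (B + 1) * (2 * Fp f a0 t) - f t ^ 2) := by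
    have hd : ∀ t, HasDerivAt (fun t => (B + 1) * (2 * Fp f a0 t) - f t ^ 2)
        ((B + 1) * (2 * f t) - 2 * f t ^ 1 * deriv f t) t := by
      intro t
      have e1 := ((Fp_hasDerivAt h t).const_mul 2).const_mul (B + 1)
      have e2 := ((h.cd.differentiable (by norm_num) t).hasDerivAt).pow 2
      exact e1.sub e2
    refine monotone_of_deriv_nonneg (fun t => (hd t).differentiableAt) fun t => ?_
    rw [(hd t).deriv]
    have hf := h.nn t
    by_cases ht : t ∈ Icc a0 a1
    · have h3 := hB t ht
      rw [Real.norm_eq_abs] at h3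
      have h4 := (abs_le.mp h3).2
      have h5 : 0 ≤ 2 * f t * (B + 1 - deriv f t) := by
        apply mul_nonneg (by linarith)
        linarith
      nlinarith
    · have h3 : f t = 0 := by
        rw [mem_Icc, not_and_or, not_le, not_le] at ht
        rcases ht with ht | ht
        · exact h.lo t ht.le
        · exact h.hi t ht.le
      rw [h3]
      simp
  have h1 := hH hv
  simp only [Fp_a0, h.lo a0 le_rfl] at h1
  have h2 : f v ^ 2 ≤ (B + 1) * (2 * Fp f a0 v) := by
    have : (B + 1) * (2 * 0) - (0 : ℝ) ^ 2 ≤ (B + 1) * (2 * Fp f a0 v) - f v ^ 2 := h1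
    nlinarith
  have hF := Fp_nonneg h v
  have h3 : f v ^ 2 ≤ (√(B + 1) * √(2 * Fp f a0 v)) ^ 2 := by
    rw [mul_pow, hsq, Real.sq_sqrt (by linarith)]
    exact h2
  exact le_of_sq_le_sq h3 (by positivity)

end

theorem b0a : S_B0A := by
  intro f a0 a1 h h0 hpos
  obtain ⟨Λ, hΛ, hfΛ⟩ := f_le h
  have hcont : Continuous (Fp f a0) := (Fp_contDiff h).continuous
  -- the point `c0`
  set Z : Set ℝ := {v | Fp f a0 v = 0} with hZ
  have hZne : Z.Nonempty := ⟨0, Fp_zero h h0⟩
  have hZa : ∀ v ∈ Z, v < a1 := by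
    intro v hv
    by_contra hcon
    push Not at hcon
    have h1 := Fp_mono h hcon
    have h2 : Fp f a0 v = 0 := hv
    linarith
  have hZb : BddAbove Z := ⟨a1, fun v hv => (hZa v hv).le⟩
  have hZc : IsClosed Z := isClosed_eq hcont continuous_const
  set c0 : ℝ := sSup Z with hc0
  have hc0Z : c0 ∈ Z := hZc.csSup_mem hZne hZb
  have hc00 : Fp f a0 c0 = 0 := hc0Z
  have hc0a : c0 < a1 := hZa c0 hc0Z
  have hc0nn : 0 ≤ c0 := le_csSup hZb (Fp_zero h h0)
  have hle : ∀ v, v ≤ c0 → Fp f a0 v = 0 := by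
    intro v hv
    apply le_antisymm
    · rw [← hc00]; exact Fp_mono h hv
    · exact Fp_nonneg h v
  have hgt : ∀ v, c0 < v → 0 < Fp f a0 v := by
    intro v hv
    apply lt_of_le_of_ne (Fp_nonneg h v)
    intro h1
    have h2 : v ≤ c0 := le_csSup hZb h1.symm
    linarith
  -- the function `φ = 1/√(2F)`
  set φ : ℝ → ℝ := fun t => 1 / √(2 * Fp f a0 t) with hφ
  have hsq : ∀ v, c0 < v → 0 < √(2 * Fp f a0 v) := fun v hv =>
    Real.sqrt_pos.mpr (by linarith [hgt v hv])
  have hsqd : ∀ v, c0 < v → HasDerivAt (fun t => √(2 * Fp f a0 t))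
      (2 * f v / (2 * √(2 * Fp f a0 v))) v := by
    intro v hv
    exact ((Fp_hasDerivAt h v).const_mul 2).sqrt (by linarith [hgt v hv])
  have hφc : ContDiffOn ℝ 1 φ (Ioi c0) := by
    intro v hv
    apply ContDiffAt.contDiffWithinAt
    have h1 : ContDiffAt ℝ 1 (fun t => 2 * Fp f a0 t) v :=
      (contDiff_const.mul ((Fp_contDiff h).of_le (by norm_num))).contDiffAt
    have h2 : ContDiffAt ℝ 1 (fun t => √(2 * Fp f a0 t)) v :=
      h1.sqrt (by linarith [hgt v hv])
    exact contDiffAt_const.div h2 (hsq v hv).ne'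
  have hφcont : ContinuousOn φ (Ioi c0) := hφc.continuousOn
  have hφi : ∀ v, c0 < v → IntervalIntegrable φ volume a1 v := by
    intro v hv
    apply ContinuousOn.intervalIntegrable
    apply hφcont.mono
    intro t ht
    have h1 := ht.1
    exact lt_of_lt_of_le (lt_min hc0a hv) h1
  set G : ℝ → ℝ := fun v => ∫ t in a1..v, φ t with hG
  have hGd : ∀ v, c0 < v → HasDerivAt G (φ v) v := by
    intro v hv
    exact intervalIntegral.integral_hasDerivAt_right (hφi v hv)
      (hφcont.stronglyMeasurableAtFilter isOpen_Ioi v hv)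
      (hφcont.continuousAt (Ioi_mem_nhds hv))
  have hGa : G a1 = 0 := intervalIntegral.integral_same
  have hG2 : ContDiffOn ℝ 2 G (Ioi c0) := by
    have h2 : (2 : WithTop ℕ∞) = 1 + 1 := by norm_num
    rw [h2, contDiffOn_succ_iff_deriv_of_isOpen isOpen_Ioi]
    refine ⟨fun v hv => (hGd v hv).differentiableAt.differentiableWithinAt, by simp, ?_⟩
    exact hφc.congr fun v hv => (hGd v hv).deriv
  -- upper bound of `√(2F)`
  have hub : ∀ v, c0 < v → √(2 * Fp f a0 v) ≤ Λ * (v - c0) := by
    intro v hv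
    have hmono : MonotoneOn (fun t => Λ * (t - c0) - √(2 * Fp f a0 t)) (Icc c0 v) := by
      have hd : ∀ t, c0 < t → HasDerivAt (fun t => Λ * (t - c0) - √(2 * Fp f a0 t))
          (Λ * 1 - 2 * f t / (2 * √(2 * Fp f a0 t))) t := by
        intro t ht
        exact (((hasDerivAt_id t).sub_const c0).const_mul Λ).sub (hsqd t ht)
      apply monotoneOn_of_deriv_nonneg (convex_Icc _ _)
      · apply Continuous.continuousOn
        have h1 : Continuous (fun t => √(2 * Fp f a0 t)) :=
          (continuous_const.mul hcont).sqrt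
        exact (continuous_const.mul (continuous_id.sub continuous_const)).sub h1
      · intro t ht
        rw [interior_Icc] at ht
        exact (hd t ht.1).differentiableAt.differentiableWithinAt
      · intro t ht
        rw [interior_Icc] at ht
        rw [(hd t ht.1).deriv, mul_one, sub_nonneg, mul_div_mul_left _ _ two_ne_zero,
          div_le_iff₀ (hsq t ht.1)]
        exact hfΛ t
    have h1 := hmono ⟨le_rfl, hv.le⟩ ⟨hv.le, le_rfl⟩ hv.le
    simp only [hc00, mul_zero, Real.sqrt_zero, sub_self] at h1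
    linarith
  have hsqa : 0 < √(2 * Fp f a0 a1) := hsq a1 hc0a
  refine ⟨c0, Λ, G, hc0nn, hc0a, hΛ, hle, hgt, hfΛ,
    fun v hv => hG2.contDiffAt (Ioi_mem_nhds hv), hGd, ?_, ?_, ?_⟩
  · -- the limit at `c0`
    have hmono : MonotoneOn (fun t => G t - Λ⁻¹ * Real.log (t - c0)) (Ioi c0) := by
      have hd : ∀ t, c0 < t → HasDerivAt (fun t => G t - Λ⁻¹ * Real.log (t - c0))
          (φ t - Λ⁻¹ * (1 / (t - c0))) t := by
        intro t ht
        have h1 : HasDerivAt (fun t => Real.log (t - c0)) (1 / (t - c0)) t :=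
          ((hasDerivAt_id t).sub_const c0).log (by
            show t - c0 ≠ 0
            linarith)
        exact (hGd t ht).sub (h1.const_mul _)
      apply monotoneOn_of_deriv_nonneg (convex_Ioi _)
      · intro t ht
        exact (hd t ht).continuousAt.continuousWithinAt
      · intro t ht
        rw [interior_Ioi] at ht
        exact (hd t ht).differentiableAt.differentiableWithinAt
      · intro t ht
        rw [interior_Ioi] at ht
        have ht' : 0 < t - c0 := sub_pos.mpr ht
        rw [(hd t ht).deriv, sub_nonneg, ← one_div, div_mul_div_comm, one_mul]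
        exact one_div_le_one_div_of_le (hsq t ht) (hub t ht)
    have hbound : ∀ v ∈ Ioo c0 a1, G v ≤ Λ⁻¹ * Real.log (v - c0) + (G a1 - Λ⁻¹ *
        Real.log (a1 - c0)) := by
      intro v hv
      have h1 := hmono hv.1 hc0a hv.2.le
      simp only at h1
      linarith
    have hlim : Tendsto (fun v => Λ⁻¹ * Real.log (v - c0) + (G a1 - Λ⁻¹ *
        Real.log (a1 - c0))) (𝓝[>] c0) atBot := by
      apply tendsto_atBot_add_const_right
      apply Tendsto.const_mul_atBot (by positivity)
      apply Real.tendsto_log_nhdsGT_zero.comp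
      apply tendsto_nhdsWithin_of_tendsto_nhds_of_eventually_within
      · have h2 : Tendsto (fun v => v - c0) (𝓝 c0) (𝓝 (c0 - c0)) :=
          (continuous_id.sub continuous_const).tendsto c0
        rw [sub_self] at h2
        exact h2.mono_left nhdsWithin_le_nhds
      · filter_upwards [self_mem_nhdsWithin] with v hv
        have hv' : c0 < v := hv
        show 0 < v - c0
        linarith
    apply tendsto_atBot_mono' _ _ hlim
    filter_upwards [Ioo_mem_nhdsGT hc0a] with v hv
    exact hbound v hv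
  · -- upper bound
    have hmono : MonotoneOn (fun t => G t - (t - a1) / √(2 * Fp f a0 a1)) (Ioi c0) := by
      have hd : ∀ t, c0 < t → HasDerivAt (fun t => G t - (t - a1) / √(2 * Fp f a0 a1))
          (φ t - 1 / √(2 * Fp f a0 a1)) t := by
        intro t ht
        exact (hGd t ht).sub (((hasDerivAt_id t).sub_const a1).div_const _)
      apply monotoneOn_of_deriv_nonneg (convex_Ioi _)
      · intro t ht
        exact (hd t ht).continuousAt.continuousWithinAt
      · intro t ht
        rw [interior_Ioi] at ht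
        exact (hd t ht).differentiableAt.differentiableWithinAt
      · intro t ht
        rw [interior_Ioi] at ht
        rw [(hd t ht).deriv, sub_nonneg]
        exact one_div_le_one_div_of_le (hsq t ht)
          (Real.sqrt_le_sqrt (by linarith [Fp_le h t]))
    intro v hv
    rcases le_total v a1 with hva | hva
    · have h1 := hmono hv hc0a hva
      simp only [sub_self, zero_div, sub_zero] at h1
      linarith
    · apply le_of_eq
      have h1 : G v = ∫ t in a1..v, 1 / √(2 * Fp f a0 a1) := by
        apply intervalIntegral.integral_congr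
        intro t ht
        rw [uIcc_of_le hva] at ht
        show 1 / √(2 * Fp f a0 t) = _
        rw [Fp_hi h ht.1]
      rw [h1, intervalIntegral.integral_const, hGa, smul_eq_mul, zero_add, mul_one_div]
  · intro v hva
    have h1 : G v = ∫ t in a1..v, 1 / √(2 * Fp f a0 a1) := by
      apply intervalIntegral.integral_congr
      intro t ht
      rw [uIcc_of_le hva] at ht
      show 1 / √(2 * Fp f a0 t) = _
      rw [Fp_hi h ht.1]
    rw [h1, intervalIntegral.integral_const, hGa, smul_eq_mul, zero_add, mul_one_div]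

end Pool.Agent.Helper16.BG
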